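import Pool.Agent.K3h75.ND.Stm
import Pool.Agent.H918R2.Quad.Pres

/-!
# Hypersurfaces with nodal reductions: regularity of the first chart

Brick REG1 of project ND of helper75.
-/

set_option autoImplicit false
set_option linter.unusedSectionVars false
set_option linter.unusedVariables false

namespace Pool.Agent.K3h94.ND

open MvPolynomial Pool.Agent.H918R2.Quad Pool.Agent.TH214.RM Pool.Agent.K3h75.ND

section

variable {R σ τ : Type} [CommRing R]

theorem pd_inl (m : σ) (p : MvPolynomial σ R) :
    pderiv (Sum.inl m : σ ⊕ τ) (rename Sum.inl p) = rename Sum.inl (pderiv m p) :=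
  pderiv_rename Sum.inl_injective _ _

theorem pd_inr (m : τ) (p : MvPolynomial σ R) :
    pderiv (Sum.inr m : σ ⊕ τ) (rename Sum.inl p) = 0 := by
  induction p using MvPolynomial.induction_on with
  | C r => rw [rename_C, pderiv_C]
  | add p q hp hq => rw [map_add, map_add, hp, hq, add_zero]
  | mul_X p i hp =>
    rw [map_mul, rename_X, pderiv_mul, hp, zero_mul, zero_add, pderiv_X_of_ne, mul_zero]
    exact Sum.inl_ne_inr

/-- the equations `y l = π ^ j z l` -/
noncomputable def cc (f : MvPolynomial σ R) (ϖ : R) (l : σ) : MvPolynomial (σ ⊕ σ) R :=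
  rename Sum.inl (pderiv l f) - C ϖ * X (Sum.inr l)

variable [Fintype σ]

/-- the quadratic form at `z` -/
noncomputable def qz (b : σ → σ → MvPolynomial σ R) : MvPolynomial (σ ⊕ σ) R :=
  ∑ l, ∑ m, rename Sum.inl (b l m) * X (Sum.inr l) * X (Sum.inr m)

theorem pd_cc_inl (f : MvPolynomial σ R) (ϖ : R) (l m : σ) :
    pderiv (Sum.inl m) (cc f ϖ l) = rename Sum.inl (pderiv m (pderiv l f)) := by
  unfold cc
  rw [map_sub, pd_inl, pderiv_C_mul, pderiv_X_of_ne, mul_zero, sub_zero]
  exact Sum.inr_ne_inl

theorem pd_cc_inr [DecidableEq σ] (f : MvPolynomial σ R) (ϖ : R) (l m : σ) :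
    pderiv (Sum.inr m) (cc f ϖ l) = - (C ϖ * if l = m then 1 else 0) := by
  unfold cc
  rw [map_sub, pd_inr, pderiv_C_mul, zero_sub]
  congr 2
  split_ifs with h
  · rw [h, pderiv_X_self]
  · exact pderiv_X_of_ne fun h' => h (Sum.inr_injective h')

theorem pd_qz [DecidableEq σ] (b : σ → σ → MvPolynomial σ R) (m : σ) :
    pderiv (Sum.inr m) (qz b) =
      ∑ i, rename Sum.inl (polar b m i) * X (Sum.inr i) := by
  unfold qz
  rw [map_sum]
  have h1 : ∀ l m' : σ, pderiv (Sum.inr m : σ ⊕ σ)
      (rename Sum.inl (b l m') * X (Sum.inr l) * X (Sum.inr m')) =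
      (if l = m then rename Sum.inl (b l m') * X (Sum.inr m') else 0) +
      (if m' = m then rename Sum.inl (b l m') * X (Sum.inr l) else 0) := by
    intro l m'
    rw [pderiv_mul, pderiv_mul, pd_inr, zero_mul, zero_add]
    congr 1
    · split_ifs with h
      · rw [h, pderiv_X_self, mul_one]
      · rw [pderiv_X_of_ne fun h' => h (Sum.inr_injective h'), mul_zero, zero_mul]
    · split_ifs with h
      · rw [h, pderiv_X_self, mul_one]
      · rw [pderiv_X_of_ne fun h' => h (Sum.inr_injective h'), mul_zero]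
  simp_rw [map_sum, h1, Finset.sum_add_distrib]
  have h2 : ∑ l, ∑ m', (if l = m then rename Sum.inl (b l m') * X (Sum.inr m') else 0 :
      MvPolynomial (σ ⊕ σ) R) = ∑ i, rename Sum.inl (b m i) * X (Sum.inr i) := by
    rw [Finset.sum_comm]
    refine Finset.sum_congr rfl fun i _ => ?_
    rw [Finset.sum_ite_eq' Finset.univ m]
    simp
  have h3 : ∑ l, ∑ m', (if m' = m then rename Sum.inl (b l m') * X (Sum.inr l) else 0 :
      MvPolynomial (σ ⊕ σ) R) = ∑ i, rename Sum.inl (b i m) * X (Sum.inr i) := by
    refine Finset.sum_congr rfl fun i _ => ?_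
    rw [Finset.sum_ite_eq' Finset.univ m]
    simp
  rw [h2, h3, ← Finset.sum_add_distrib]
  refine Finset.sum_congr rfl fun i _ => ?_
  simp only [polar, Matrix.of_apply, map_add, add_mul]

end

theorem t_REG1 (hJ1 : S_JR1) (hJ2 : S_JR2) : S_REG1 := by
  intro R F σ _ _ _ _ _ _ _ 𝒪 π f t k h u b D j z hz hy hk hfrac
  classical
  obtain ⟨j₀, hj₀⟩ := D.ind
  have hinj : Function.Injective (algebraMap R F) := hj₀.algebraMap_injective
  have hπ0 : algebraMap R F π ≠ 0 := by
    rw [Ne, map_eq_zero_iff _ hinj]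
    exact D.irr.ne_zero
  have hπj : ∀ i : ℕ, algebraMap R F (π ^ i) ≠ 0 := by
    intro i
    rw [map_pow]
    exact pow_ne_zero _ hπ0
  let W := MvPolynomial (σ ⊕ σ) R
  let eW : W →ₐ[R] F := aeval (Sum.elim t z)
  have heC : ∀ r, eW (C r) = algebraMap R F r := fun r => aeval_C _ r
  have hel : ∀ l, eW (X (Sum.inl l)) = t l := fun l => by
    show aeval (Sum.elim t z) (X (Sum.inl l)) = t l
    rw [aeval_X]
    rfl
  have her : ∀ l, eW (X (Sum.inr l)) = z l := fun l => by
    show aeval (Sum.elim t z) (X (Sum.inr l)) = z l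
    rw [aeval_X]
    rfl
  have heren : ∀ p : MvPolynomial σ R, eW (rename Sum.inl p) = aeval t p := by
    intro p
    show aeval (Sum.elim t z) (rename Sum.inl p) = aeval t p
    rw [aeval_rename]
    rfl
  have heW : ∀ w, eW w ∈ 𝒪 := by
    intro w
    induction w using MvPolynomial.induction_on with
    | C r => rw [heC]; exact D.R_mem r
    | add p q hp hq => rw [map_add]; exact 𝒪.add_mem hp hq
    | mul_X p i hp =>
      rw [map_mul]
      refine 𝒪.mul_mem hp ?_
      rcases i with i | i
      · rw [hel]; exact D.t_mem i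
      · rw [her]; exact hz i
  -- the equations
  let c : σ → W := cc f (π ^ j)
  let g : W := rename Sum.inl u * C (π ^ (k - 2 * j)) + qz b
  let I : Ideal W := Ideal.span (insert g (Set.range c))
  have hec : ∀ l, eW (c l) = 0 := by
    intro l
    show eW (rename Sum.inl (pderiv l f) - C (π ^ j) * X (Sum.inr l)) = 0
    rw [map_sub, map_mul, heren, heC, her, hy, sub_self]
  have hkj : π ^ k = π ^ (2 * j) * π ^ (k - 2 * j) := by
    rw [← pow_add]
    congr 1
    omega
  have heqz : eW (qz b) = ∑ l, ∑ m, aeval t (b l m) * z l * z m := by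
    unfold qz
    simp_rw [map_sum, map_mul, heren, her]
  have heg : eW g = 0 := by
    have h1 := congrArg (aeval t) D.eq
    rw [map_mul, D.rel, mul_zero, map_add, map_mul, map_sum] at h1
    simp_rw [map_sum, map_mul, hy] at h1
    rw [aeval_C, hkj] at h1
    have h2 : algebraMap R F (π ^ (2 * j)) * eW g = 0 := by
      show algebraMap R F (π ^ (2 * j)) * eW (rename Sum.inl u * C (π ^ (k - 2 * j)) + qz b) = 0
      rw [map_add, map_mul, heren, heC, heqz, mul_add, h1, map_mul, Finset.mul_sum]
      simp_rw [Finset.mul_sum]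
      congr 1
      · ring
      · refine Finset.sum_congr rfl fun l _ => Finset.sum_congr rfl fun m _ => ?_
        rw [two_mul, pow_add, map_mul]
        ring
    exact (mul_eq_zero.1 h2).resolve_left (hπj _)
  have hI : ∀ w ∈ I, eW w = 0 := by
    intro w hw
    have h1 : I ≤ RingHom.ker (eW : W →+* F) := by
      refine Ideal.span_le.2 ?_
      rintro x (rfl | ⟨l, rfl⟩)
      · exact heg
      · exact hec l
    exact h1 hw
  obtain ⟨A, _, _, pr, hpr, hprk, hpr0⟩ := exists_quot (R := R) I
  have hcI : ∀ l, pr (c l) = 0 := fun l => (hpr0 _).2 (Ideal.subset_span (Or.inr ⟨l, rfl⟩))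
  have hgI : pr g = 0 := (hpr0 _).2 (Ideal.subset_span (Or.inl rfl))
  have hyz : ∀ l, pr (rename Sum.inl (pderiv l f)) = pr (C (π ^ j)) * pr (X (Sum.inr l)) := by
    intro l
    have h1 := hcI l
    change pr (rename Sum.inl (pderiv l f) - C (π ^ j) * X (Sum.inr l)) = 0 at h1
    rw [map_sub, map_mul] at h1
    exact sub_eq_zero.1 h1
  have hg' : pr (rename Sum.inl u) * pr (C (π ^ (k - 2 * j))) +
      ∑ l, ∑ m, pr (rename Sum.inl (b l m)) * pr (X (Sum.inr l)) * pr (X (Sum.inr m)) = 0 := by
    have h1 := hgI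
    change pr (rename Sum.inl u * C (π ^ (k - 2 * j)) + qz b) = 0 at h1
    unfold qz at h1
    simpa only [map_add, map_mul, map_sum] using h1
  let y : σ → W := fun l => X (Sum.inl l)
  have haev : ∀ p : MvPolynomial σ R, aeval y p = rename Sum.inl p := by
    intro p
    have h1 : (aeval y : MvPolynomial σ R →ₐ[R] W) = rename Sum.inl := by
      apply MvPolynomial.algHom_ext
      intro i
      rw [aeval_X, rename_X]
    rw [h1]
  have hnσ : Nonempty σ := ⟨j₀⟩
  have hf0 : f ≠ 0 := by
    intro h0
    apply D.hes.1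
    have h1 : hess f = 0 := by
      ext i m
      simp [hess, h0]
    rw [h1, Matrix.det_zero, map_zero]
  have hh0 : h ≠ 0 := by
    rintro rfl
    exact D.h_unit.1 (map_zero _)
  refine regular_of_pres 𝒪 D.loc pr hpr eW (fun w hw => hI w ((hpr0 w).1 hw)) heW ?_ ?_
    y (h * f) (mul_ne_zero hh0 hf0) ?_ j₀ ?_ ?_
  · intro x hx
    obtain ⟨a, b', hb, hx'⟩ := hfrac x hx
    exact ⟨a, b', hb.1, hb.2.2, hx'⟩
  · intro q hq hqm
    -- the residue domain
    let φ : W →+* A ⧸ q := (Ideal.Quotient.mk q).comp (pr : W →+* A)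
    have hφ : ∀ w, φ w = 0 ↔ pr w ∈ q := fun w => Ideal.Quotient.eq_zero_iff_mem
    have hφI : ∀ w, pr w = 0 → φ w = 0 := fun w hw => (hφ w).2 (by rw [hw]; exact q.zero_mem)
    have hφU : ∀ p : MvPolynomial σ R, φ (rename Sum.inl p) = 0 ↔ ¬ U 𝒪 (aeval t p) := by
      intro p
      rw [hφ, hqm, heren]
    have hφπ : φ (C π) = 0 := by
      rw [hφ, hqm, heC]
      exact fun h' => D.irr.not_isUnit (D.R_unit π h')
    have hπq : pr (C π) ∈ q := (hφ _).1 hφπ
    have hφy : ∀ l, φ (rename Sum.inl (pderiv l f)) = 0 := fun l => (hφU _).2 (D.crit l)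
    have hφu : φ (rename Sum.inl u) ≠ 0 := fun h' => (hφU _).1 h' D.u_unit
    -- the matrices
    let ren : MvPolynomial σ R →+* A ⧸ q := φ.comp (rename Sum.inl : MvPolynomial σ R →ₐ[R] W)
    have hHdet : ((hess f).map ren).det ≠ 0 := by
      rw [← RingHom.mapMatrix_apply, ← RingHom.map_det]
      exact fun h' => (hφU _).1 h' D.hes
    have hbdet : ((polar b).map ren).det ≠ 0 := by
      rw [← RingHom.mapMatrix_apply, ← RingHom.map_det]
      exact fun h' => (hφU _).1 h' D.b_unit
    have hlinH : ∀ a : σ → W, (∀ i, φ (∑ l, a l * pderiv (Sum.inl i) (c l)) = 0) →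
        ∀ l, φ (a l) = 0 := by
      intro a ha
      have h1 : ((hess f).map ren).mulVec (fun l => φ (a l)) = 0 := by
        funext i
        rw [Matrix.mulVec, dotProduct, Pi.zero_apply, ← ha i, map_sum]
        refine Finset.sum_congr rfl fun l _ => ?_
        rw [map_mul, mul_comm]
        congr 1
        show ren (pderiv i (pderiv l f)) = φ (pderiv (Sum.inl i) (cc f (π ^ j) l))
        rw [pd_cc_inl]
        rfl
      intro l
      exact congrFun (Matrix.eq_zero_of_mulVec_eq_zero hHdet h1) l
    by_cases hz0 : ∀ m, φ (X (Sum.inr m)) = 0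
    · -- all `z m` are in the prime ideal
      have hφg : φ g = 0 := hφI _ hgI
      have hφqz : φ (qz b) = 0 := by
        unfold qz
        simp only [map_sum, map_mul, hz0, mul_zero, Finset.sum_const_zero]
      have hk1 : k = 2 * j + 1 := by
        rcases hk with hk | hk
        · exfalso
          change φ (rename Sum.inl u * C (π ^ (k - 2 * j)) + qz b) = 0 at hφg
          rw [map_add, hφqz, add_zero, hk, Nat.sub_self, pow_zero, C_1, mul_one] at hφg
          exact hφu hφg
        · exact hk
      refine hJ2 R (σ ⊕ σ) σ A π D.irr (pr : W →+* A) hpr c g (rename Sum.inl u) hprk q hπq ?_ ?_ ?_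
      · intro a ha l
        exact (hφ _).1 (hlinH a (fun i => (hφ _).2 (ha (Sum.inl i))) l)
      · exact fun h' => hφu ((hφ _).2 h')
      · have h1 : g - rename Sum.inl u * C π = qz b := by
          show rename Sum.inl u * C (π ^ (k - 2 * j)) + qz b - rename Sum.inl u * C π = qz b
          rw [hk1, show 2 * j + 1 - 2 * j = 1 by omega, pow_one]
          ring
        rw [h1]
        unfold qz
        refine Ideal.sum_mem _ fun l _ => Ideal.sum_mem _ fun m _ => ?_
        rw [mul_assoc]
        refine Ideal.mul_mem_left _ _ ?_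
        rw [pow_two]
        exact Ideal.mul_mem_mul ((hφ _).1 (hz0 l)) ((hφ _).1 (hz0 m))
    · -- some `z m` is a unit
      push Not at hz0
      obtain ⟨m₀, hm₀⟩ := hz0
      have hj : j ≠ 0 := by
        rintro rfl
        apply hm₀
        have h1 := hφI _ (hcI m₀)
        change φ (rename Sum.inl (pderiv m₀ f) - C (π ^ 0) * X (Sum.inr m₀)) = 0 at h1
        rw [map_sub, hφy, pow_zero, C_1, one_mul, zero_sub, neg_eq_zero] at h1
        exact h1
      have hφπj : φ (C (π ^ j)) = 0 := by
        rw [C_pow, map_pow, hφπ, zero_pow hj]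
      let c' : Option σ → W := fun o => o.elim g c
      have hrange : Set.range c' = insert g (Set.range c) := by
        rw [Option.range_eq]
        rfl
      refine hJ1 R (σ ⊕ σ) (Option σ) A π D.irr (pr : W →+* A) hpr c' (by rw [hrange]; exact hprk)
        q hπq ?_
      intro a ha
      have ha' : ∀ i, φ (a none) * φ (pderiv i g) + ∑ l, φ (a (some l)) * φ (pderiv i (c l)) = 0 := by
        intro i
        have h1 := (hφ _).2 (ha i)
        rw [Fintype.sum_option, map_add, map_mul, map_sum] at h1
        simp_rw [map_mul] at h1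
        exact h1
      have h0 : φ (a none) = 0 := by
        by_contra hne
        have h1 : ((polar b).map ren).mulVec (fun l => φ (X (Sum.inr l))) = 0 := by
          funext m
          have h2 := ha' (Sum.inr m)
          have h3 : ∑ l, φ (a (some l)) * φ (pderiv (Sum.inr m) (c l)) = 0 := by
            refine Finset.sum_eq_zero fun l _ => ?_
            have h4 : φ (pderiv (Sum.inr m) (cc f (π ^ j) l)) = 0 := by
              rw [pd_cc_inr, map_neg, map_mul, hφπj, zero_mul, neg_zero]
            change φ (a (some l)) * φ (pderiv (Sum.inr m) (cc f (π ^ j) l)) = 0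
            rw [h4, mul_zero]
          rw [h3, add_zero] at h2
          have h5 := (mul_eq_zero.1 h2).resolve_left hne
          change φ (pderiv (Sum.inr m) (rename Sum.inl u * C (π ^ (k - 2 * j)) + qz b)) = 0 at h5
          rw [map_add, pderiv_mul, pd_inr, zero_mul, zero_add, pderiv_C, mul_zero, zero_add,
            pd_qz, map_sum] at h5
          rw [Matrix.mulVec, dotProduct, Pi.zero_apply, ← h5]
          refine Finset.sum_congr rfl fun i _ => ?_
          rw [map_mul]
          rfl
        exact hm₀ (congrFun (Matrix.eq_zero_of_mulVec_eq_zero hbdet h1) m₀)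
      have h1 : ∀ l, φ (a (some l)) = 0 := by
        refine hlinH (fun l => a (some l)) fun i => ?_
        rw [map_sum]
        simp_rw [map_mul]
        have h2 := ha' (Sum.inl i)
        rw [h0, zero_mul, zero_add] at h2
        exact h2
      intro o
      rcases o with _ | l
      · exact (hφ _).1 h0
      · exact (hφ _).1 (h1 l)
  · rw [haev, D.eq]
    simp only [map_add, map_mul, map_sum, rename_C, hyz]
    rw [hkj, C_mul, map_mul]
    have h1 : pr (C (π ^ (2 * j))) = pr (C (π ^ j)) * pr (C (π ^ j)) := by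
      rw [← map_mul, ← C_mul, ← pow_add, two_mul]
    have h2 : pr (C (π ^ (2 * j))) * (pr (rename Sum.inl u) * pr (C (π ^ (k - 2 * j))) +
        ∑ l, ∑ m, pr (rename Sum.inl (b l m)) * pr (X (Sum.inr l)) * pr (X (Sum.inr m))) = 0 := by
      rw [hg', mul_zero]
    rw [mul_add, Finset.mul_sum] at h2
    rw [← h2]
    congr 1
    · ring
    · refine Finset.sum_congr rfl fun l _ => ?_
      rw [Finset.mul_sum]
      refine Finset.sum_congr rfl fun m _ => ?_
      rw [h1]
      ring
  · convert hj₀ using 2 with i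
    exact hel _
  · intro w
    have key : ∃ p p' : MvPolynomial σ R, aeval t p' ≠ 0 ∧
        pr (rename Sum.inl p' * w) = pr (rename Sum.inl p) := by
      induction w using MvPolynomial.induction_on with
      | C r => exact ⟨C r, 1, by simp, by rw [map_one, one_mul, rename_C]⟩
      | add w₁ w₂ h₁ h₂ =>
        obtain ⟨p₁, p₁', h1, h1'⟩ := h₁
        obtain ⟨p₂, p₂', h2, h2'⟩ := h₂
        refine ⟨p₂' * p₁ + p₁' * p₂, p₁' * p₂', ?_, ?_⟩
        · rw [map_mul]; exact mul_ne_zero h1 h2
        · rw [map_mul] at h1' h2'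
          simp only [map_mul, map_add]
          rw [← h1', ← h2']
          ring
      | mul_X w i hw =>
        obtain ⟨p, p', h1, h1'⟩ := hw
        rcases i with i | i
        · refine ⟨p * X i, p', h1, ?_⟩
          rw [← mul_assoc, map_mul, h1', map_mul, rename_X, map_mul]
        · refine ⟨p * pderiv i f, p' * C (π ^ j), ?_, ?_⟩
          · rw [map_mul, aeval_C]; exact mul_ne_zero h1 (hπj j)
          · rw [map_mul] at h1'
            simp only [map_mul, rename_C]
            rw [← h1', hyz i]
            ring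
    obtain ⟨p, p', h1, h2⟩ := key
    refine ⟨p, p', ?_, ?_⟩
    · rw [haev, heren]; exact h1
    · rw [haev, haev]; exact h2

end Pool.Agent.K3h94.ND
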